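import Pool.Agent.H7.Sph5

set_option autoImplicit false

namespace Pool.Agent.Results.MP_2be980_co.Linear

open Metric

/-- `G` is the intersection graph of a family of pairwise distinct spheres of positive radius
in `ℝ^d`, one sphere for each vertex. -/
def InS (d : ℕ) {V : Type} (G : SimpleGraph V) : Prop :=
  ∃ (c : V → EuclideanSpace ℝ (Fin d)) (r : V → ℝ), (∀ v, 0 < r v) ∧
    Function.Injective (fun v => sphere (c v) (r v)) ∧
    ∀ u v, u ≠ v → (G.Adj u v ↔ (sphere (c u) (r u) ∩ sphere (c v) (r v)).Nonempty)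

theorem sph_inj {E : Type} [NormedAddCommGroup E] [NormedSpace ℝ E] {x y : E} {r : ℝ} (hr : 0 < r)
    (h : sphere x r = sphere y r) : x = y := by
  by_contra hne
  have n0 : 0 < ‖x - y‖ := norm_pos_iff.2 (sub_ne_zero.2 hne)
  have a : x + (r / ‖x - y‖) • (x - y) ∈ sphere x r := by
    rw [mem_sphere_iff_norm, add_sub_cancel_left, norm_smul, Real.norm_of_nonneg (by positivity)]
    field_simp
  rw [h, mem_sphere_iff_norm, show x + (r / ‖x - y‖) • (x - y) - y = (1 + r / ‖x - y‖) • (x - y) by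
    module, norm_smul, Real.norm_of_nonneg (by positivity), add_mul, div_mul_cancel₀ _ n0.ne'] at a
  linarith

theorem meet {E : Type} [NormedAddCommGroup E] [InnerProductSpace ℝ E] {x y : E} {τ : ℝ}
    (t0 : 0 ≤ τ) (t1 : τ < 1) (hx : inner ℝ x x = 1) (hy : inner ℝ y y = 1) :
    τ ≤ inner ℝ x y ↔ (sphere x √((1 - τ) / 2) ∩ sphere y √((1 - τ) / 2)).Nonempty := by
  have r2 : √((1 - τ) / 2) ^ 2 = (1 - τ) / 2 := Real.sq_sqrt (by linarith)
  have r0 := Real.sqrt_nonneg ((1 - τ) / 2)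
  constructor
  · intro h
    obtain ⟨C, hC⟩ : ∃ C, C = inner ℝ x y := ⟨_, rfl⟩
    rw [← hC] at h
    have c0 : 0 < 1 + C := by linarith
    have D0 : 0 ≤ 1 / 4 - (1 + τ) / (4 * (1 + C)) := by
      rw [sub_nonneg, div_le_div_iff₀ (by positivity) (by norm_num)]; linarith
    obtain ⟨s, hs⟩ : ∃ s : ℝ, s ^ 2 = 1 / 4 - (1 + τ) / (4 * (1 + C)) := ⟨_, Real.sq_sqrt D0⟩
    have hs' : 4 * (1 + C) * s ^ 2 = C - τ := by rw [hs]; field_simp; ring
    refine ⟨(1 / 2 + s) • (x + y), ?_, ?_⟩ <;>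
    · rw [mem_sphere_iff_norm, ← pow_left_inj₀ (norm_nonneg _) r0 two_ne_zero, r2,
        ← real_inner_self_eq_norm_sq]
      simp only [inner_sub_left, inner_sub_right, real_inner_smul_left, real_inner_smul_right,
        inner_add_left, inner_add_right, hx, hy, real_inner_comm x y, ← hC]
      linear_combination hs' / 2
  · rintro ⟨p, h1, h2⟩
    rw [mem_sphere_iff_norm] at h1 h2
    have a : ‖x - y‖ ≤ 2 * √((1 - τ) / 2) := by
      have := norm_sub_le (p - y) (p - x)
      rw [show p - y - (p - x) = x - y by abel] at this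
      linarith
    have b : ‖x - y‖ ^ 2 = 2 - 2 * inner ℝ x y := by
      rw [norm_sub_sq_real, ← real_inner_self_eq_norm_sq, ← real_inner_self_eq_norm_sq, hx, hy]; ring
    have := pow_le_pow_left₀ (norm_nonneg _) a 2
    rw [b, mul_pow, r2] at this
    linarith

theorem result (n : ℕ) (G : SimpleGraph (Fin n)) : InS (n - n / 6 + 1) G := by
  obtain ⟨c, τ, t0, t1, ci, c1, c2⟩ := Pool.Agent.H7.Sph.main G (j := n / 6) (d := n - n / 6 + 1)
    (by rw [Fintype.card_fin]; omega) (by rw [Fintype.card_fin]; omega)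
  have r0 : 0 < √((1 - τ) / 2) := Real.sqrt_pos.2 (by linarith)
  refine ⟨c, fun _ => √((1 - τ) / 2), fun _ => r0, fun u v h => ci (sph_inj r0 h), fun u v h => ?_⟩
  rw [← meet t0 t1 (c1 u) (c1 v)]
  exact ⟨fun k => ((c2 u v h).1 k).le, fun k => by_contra fun k' => ((c2 u v h).2 k').not_ge k⟩

end Pool.Agent.Results.MP_2be980_co.Linear
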